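import Pool.Agent.helper36.PP.SpecL

/-!
# Module pp:CTA
-/

set_option autoImplicit false

open Complex Metric Set Filter Topology MeasureTheory MPS MQ Pool.Agent.helper98.ILF
open scoped Pointwise

noncomputable section

namespace PPS

/-- scaling of the Cauchy transform -/
theorem CTA_scale (μ : ℂ → ℂ) (r : ℝ) (hr : 0 < r) (b : ℂ) :
    NLF.CT μ b = (r : ℂ) * NLF.CT (fun w => μ (r * w)) (b / r) := by
  have hr' : (r : ℂ) ≠ 0 := by exact_mod_cast hr.ne'
  have h := Measure.integral_comp_smul (volume : Measure ℂ) (fun z : ℂ => μ z / (z - b)) r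
  have e : (fun w : ℂ => μ (r * w) / (w - b / r)) =
      fun w : ℂ => (r : ℂ) * ((fun z : ℂ => μ z / (z - b)) (r • w)) := by
    funext w
    simp only [real_smul]
    have e1 : (r : ℂ) * w - b = r * (w - b / r) := by
      field_simp
    rw [e1]
    by_cases hw : w - b / r = 0
    · rw [hw]
      simp
    · field_simp
  unfold NLF.CT
  rw [e, integral_const_mul, h]
  have h2 : Module.finrank ℝ ℂ = 2 := Complex.finrank_real_complex
  rw [h2, abs_of_pos (by positivity), real_smul]
  push_cast
  field_simp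

theorem CTA (hB : NLF.CTB_stmt) (hH : NLF.CTH_stmt) (h0 : NLF.CT0_stmt) : CTA_stmt := by
  intro μ A hm hb hs
  obtain ⟨r, hr, hAr⟩ : ∃ r : ℝ, 0 < r ∧ A ≤ 4 * r :=
    ⟨max (A / 4) 1, lt_of_lt_of_le one_pos (le_max_right _ _), by
      have := le_max_left (A / 4) 1
      linarith⟩
  have hr' : (r : ℂ) ≠ 0 := by exact_mod_cast hr.ne'
  have hm' : Measurable (fun w : ℂ => μ (r * w)) := hm.comp (measurable_const_mul _)
  have hb' : ∀ w : ℂ, ‖(fun w : ℂ => μ (r * w)) w‖ ≤ 1 := fun w => hb _
  have hs' : ∀ w : ℂ, (fun w : ℂ => μ (r * w)) w ≠ 0 → ‖w‖ < 4 := by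
    intro w hw
    have h := hs _ hw
    rw [norm_mul, norm_real, Real.norm_of_nonneg hr.le] at h
    have h2 : r * ‖w‖ < r * 4 := by linarith
    exact lt_of_mul_lt_mul_left h2 hr.le
  obtain ⟨b1, b2, b3, b4⟩ := hB _ hm' hb' hs'
  have hsc : NLF.CT μ = fun b => (r : ℂ) * NLF.CT (fun w => μ (r * w)) (b / r) := by
    funext b
    exact CTA_scale μ r hr b
  refine ⟨fun b => ?_, ⟨r * 80, fun b => ?_⟩, ?_, ?_, ?_, ?_⟩
  · rw [← integrable_comp_smul_iff (volume : Measure ℂ) (fun z : ℂ => μ z / (z - b)) hr.ne']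
    have e : (fun w : ℂ => (fun z : ℂ => μ z / (z - b)) (r • w)) =
        fun w : ℂ => (r : ℂ)⁻¹ * (μ (r * w) / (w - b / r)) := by
      funext w
      simp only [real_smul]
      have e1 : (r : ℂ) * w - b = r * (w - b / r) := by
        field_simp
      rw [e1]
      by_cases hw : w - b / r = 0
      · rw [hw]
        simp
      · field_simp
    rw [e]
    exact (b1 (b / r)).const_mul _
  · rw [CTA_scale μ r hr b, norm_mul, norm_real, Real.norm_of_nonneg hr.le]
    exact mul_le_mul_of_nonneg_left (b2 _) hr.le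
  · rw [hsc]
    exact continuous_const.mul (b3.comp (continuous_id.div_const _))
  · rw [hsc]
    have h1 : Tendsto (fun b : ℂ => b / r) (Bornology.cobounded ℂ) (Bornology.cobounded ℂ) := by
      simp only [div_eq_mul_inv]
      exact tendsto_mul_right_cobounded (inv_ne_zero hr')
    have h2 := (b4.comp h1).const_mul (r : ℂ)
    rw [mul_zero] at h2
    exact h2
  · intro U hU hz
    rw [hsc]
    have hU' : IsOpen ((fun w : ℂ => (r : ℂ) * w) ⁻¹' U) := hU.preimage (continuous_const_mul _)
    have h1 := hH _ _ hm' hb' hs' hU' (fun z hz' => hz _ hz')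
    have h2 : DifferentiableOn ℂ (fun b : ℂ => NLF.CT (fun w => μ (r * w)) (b / r)) U := by
      refine h1.comp (differentiableOn_id.div_const _) ?_
      intro b hbU
      show (r : ℂ) * (b / r) ∈ U
      rwa [mul_div_cancel₀ _ hr']
    exact h2.const_mul _
  · intro hz
    have h1 : ∀ b, NLF.CT (fun w => μ (r * w)) b = 0 := by
      intro b
      have h := CTA_scale μ r hr (r * b)
      rw [hz, mul_div_cancel_left₀ _ hr'] at h
      rcases mul_eq_zero.1 h.symm with h | h
      · exact absurd h hr'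
      · exact h
    have h2 := h0 _ hm' hb' hs' h1
    rw [ae_iff] at h2 ⊢
    have e : {z : ℂ | ¬ μ z = 0} = r • {w : ℂ | ¬ μ (r * w) = 0} := by
      ext z
      rw [mem_smul_set_iff_inv_smul_mem₀ hr.ne']
      simp only [mem_ofPred_eq, real_smul]
      push_cast
      rw [mul_inv_cancel_left₀ hr']
    rw [e, Measure.addHaar_smul, h2, mul_zero]

end PPS
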