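import Pool.Agent.helper36.PP.SpecL
import Pool.Agent.helper74.MP.MD

/-!
# Module pp:SD1
-/

set_option autoImplicit false

open Complex Metric Set Filter Topology MeasureTheory MPS MQ Pool.Agent.helper98.ILF

noncomputable section

namespace PPS

theorem SD1_meas {k : ℕ} [NeZero k] (b g : ZMod k → ℂ) : Measurable (BB b g) := by
  unfold BB
  fun_prop

/-- `f` maps small discs around `b i` into small discs around `b (i+1)`. -/
theorem SD1_der {k : ℕ} [NeZero k] {f : Polynomial ℂ} {b : ZMod k → ℂ} (hc : IsCyc f b) {η : ℝ}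
    (hη : 0 < η) : ∀ᶠ t in 𝓝[>] (0 : ℝ), ∀ i : ZMod k, ∀ y : ℂ, ‖y - b i‖ < t →
      ‖f.eval y - b (i + 1)‖ ≤ (1 + η) * ‖fd f (b i)‖ * ‖y - b i‖ := by
  rw [eventually_all]
  intro i
  have hf0 := hc.ne0 i
  have hd : HasDerivAt (fun y : ℂ => f.eval y) (fd f (b i)) (b i) := f.hasDerivAt (b i)
  have hpos : 0 < η * ‖fd f (b i)‖ := mul_pos hη (norm_pos_iff.mpr hf0)
  have h1 := (hasDerivAt_iff_isLittleO.mp hd).bound hpos
  obtain ⟨δ, hδ, hδ2⟩ := Metric.eventually_nhds_iff_ball.mp h1
  have hev : ∀ᶠ t in 𝓝[>] (0 : ℝ), t < δ := nhdsWithin_le_nhds (gt_mem_nhds hδ)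
  filter_upwards [hev] with t ht y hy
  have h2 := hδ2 y (by rw [mem_ball, dist_eq_norm]; exact hy.trans ht)
  rw [smul_eq_mul, hc.step i] at h2
  calc ‖f.eval y - b (i + 1)‖
      = ‖(f.eval y - b (i + 1) - (y - b i) * fd f (b i)) + (y - b i) * fd f (b i)‖ := by
        congr 1; ring
    _ ≤ ‖f.eval y - b (i + 1) - (y - b i) * fd f (b i)‖ + ‖(y - b i) * fd f (b i)‖ :=
        norm_add_le _ _
    _ ≤ η * ‖fd f (b i)‖ * ‖y - b i‖ + ‖y - b i‖ * ‖fd f (b i)‖ := by
        rw [norm_mul]
        gcongr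
    _ = _ := by ring

theorem SD1 (hMI : MPS.MI_stmt) : SD1_stmt := by
  intro k hk f b g r hn hc hr hr2 δ hδ
  obtain ⟨C, hC, hloc⟩ := MPS.MD_loc b g hc.inj
  have hkpos : (0 : ℝ) < k := by
    exact_mod_cast Nat.pos_of_ne_zero hk.out
  have hπ := Real.pi_pos
  set η : ℝ := δ / (4 * Real.pi * k) with hη
  have hηpos : 0 < η := by positivity
  have hder := SD1_der hc hηpos
  obtain ⟨t0, ⟨ht1, ht2⟩, ht0⟩ := ((hloc.and hder).and
    (self_mem_nhdsWithin : Ioi (0 : ℝ) ∈ 𝓝[>] (0 : ℝ))).exists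
  have ht0 : 0 < t0 := ht0
  have hev1 : ∀ᶠ s in 𝓝[>] (0 : ℝ), ∀ i, s * r i < t0 := by
    rw [eventually_all]
    intro i
    have hev : ∀ᶠ s in 𝓝[>] (0 : ℝ), s < t0 / r i :=
      nhdsWithin_le_nhds (gt_mem_nhds (div_pos ht0 (hr i)))
    filter_upwards [hev] with s hs
    exact (lt_div_iff₀ (hr i)).mp hs
  set D : ℝ := 2 * Real.pi * C * ∑ i, r i with hD
  have hD0 : 0 ≤ D := mul_nonneg (by positivity) (Finset.sum_nonneg fun i _ => (hr i).le)
  have hev2 : ∀ᶠ s in 𝓝[>] (0 : ℝ), s * D ≤ δ / 2 := by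
    have hev : ∀ᶠ s in 𝓝[>] (0 : ℝ), s < (δ / 2) / (D + 1) :=
      nhdsWithin_le_nhds (gt_mem_nhds (by positivity))
    filter_upwards [hev, self_mem_nhdsWithin] with s hs hs0
    have hs0 : 0 < s := hs0
    rw [lt_div_iff₀ (by positivity)] at hs
    nlinarith
  filter_upwards [hev1, hev2, self_mem_nhdsWithin] with s hs1 hs2 hs0
  have hs0 : 0 < s := hs0
  have hfd : ∀ i, 0 < ‖fd f (b i)‖ := fun i => norm_pos_iff.mpr (hc.ne0 i)
  set u : ZMod k → ℝ := fun i => s * r (i + 1) / ((1 + η) * ‖fd f (b i)‖) with hu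
  have hupos : ∀ i, 0 < u i := fun i => by
    have := hr (i + 1)
    have := hfd i
    simp only [hu]
    positivity
  have hule : ∀ i, u i ≤ s * r i := by
    intro i
    simp only [hu]
    have h1 := hfd i
    have h2 := hr i
    rw [div_le_iff₀ (by positivity)]
    have h3 := hr2 i
    have h4 : ‖fd f (b i)‖ * r i ≤ (1 + η) * (‖fd f (b i)‖ * r i) := by
      have : 0 ≤ ‖fd f (b i)‖ * r i := by positivity
      nlinarith
    nlinarith
  have hsub : ({z : ℂ | f.eval z ∈ NLF.KK b (fun i => s * r i)} \ NLF.KK b (fun i => s * r i)) ⊆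
      ⋃ i, (ball (b i) (s * r i) \ ball (b i) (u i)) := by
    intro z hz
    obtain ⟨hz1, hz2⟩ := hz
    simp only [NLF.KK, mem_compl_iff, not_not, mem_iUnion] at hz2
    obtain ⟨i, hi⟩ := hz2
    simp only [NLF.KK, mem_ofPred_eq, mem_compl_iff, mem_iUnion, not_exists] at hz1
    have h1 := hz1 (i + 1)
    rw [mem_ball, dist_eq_norm, not_lt] at h1
    rw [mem_iUnion]
    refine ⟨i, hi, ?_⟩
    rw [mem_ball, dist_eq_norm] at hi
    rw [mem_ball, dist_eq_norm, not_lt]
    have h2 := ht2 i z (hi.trans (hs1 i))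
    simp only [hu]
    have h3 := hfd i
    rw [div_le_iff₀ (by positivity)]
    calc s * r (i + 1) ≤ ‖f.eval z - b (i + 1)‖ := h1
      _ ≤ (1 + η) * ‖fd f (b i)‖ * ‖z - b i‖ := h2
      _ = _ := by ring
  calc ∫⁻ z in {z : ℂ | f.eval z ∈ NLF.KK b (fun i => s * r i)} \ NLF.KK b (fun i => s * r i),
      ENNReal.ofReal ‖BB b g z‖
      ≤ ∫⁻ z in ⋃ i, (ball (b i) (s * r i) \ ball (b i) (u i)), ENNReal.ofReal ‖BB b g z‖ :=
        lintegral_mono_set hsub
    _ ≤ ∑' i, ∫⁻ z in (ball (b i) (s * r i) \ ball (b i) (u i)), ENNReal.ofReal ‖BB b g z‖ :=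
        lintegral_iUnion_le _ _
    _ = ∑ i, ∫⁻ z in (ball (b i) (s * r i) \ ball (b i) (u i)), ENNReal.ofReal ‖BB b g z‖ :=
        tsum_fintype _
    _ ≤ ∑ i, ENNReal.ofReal (2 * Real.pi * Real.log ((1 + η) * (‖fd f (b i)‖ * r i / r (i + 1))) +
          2 * Real.pi * C * (s * r i)) := by
        refine Finset.sum_le_sum fun i _ => ?_
        have h := (MPS.MD_annB hMI (SD1_meas b g) hC (hupos i) (hule i) i
          (fun z hz hz2 => ht1 i z hz (hz2.trans (hs1 i)))).1
        refine h.trans ?_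
        have hratio : s * r i / u i = (1 + η) * (‖fd f (b i)‖ * r i / r (i + 1)) := by
          simp only [hu]
          have h1 := (hfd i).ne'
          have h2 := (hr (i + 1)).ne'
          field_simp
        rw [hratio] at h ⊢
        rw [ENNReal.ofReal_add]
        · have h3 : 1 ≤ ‖fd f (b i)‖ * r i / r (i + 1) := by
            rw [le_div_iff₀ (hr (i + 1)), one_mul]
            exact hr2 i
          have h4 : 1 ≤ (1 + η) * (‖fd f (b i)‖ * r i / r (i + 1)) := by
            nlinarith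
          exact mul_nonneg (by positivity) (Real.log_nonneg h4)
        · have := hr i
          positivity
    _ = ENNReal.ofReal (∑ i, (2 * Real.pi * Real.log ((1 + η) * (‖fd f (b i)‖ * r i / r (i + 1))) +
          2 * Real.pi * C * (s * r i))) := by
        rw [ENNReal.ofReal_sum_of_nonneg]
        intro i _
        have h3 : 1 ≤ ‖fd f (b i)‖ * r i / r (i + 1) := by
          rw [le_div_iff₀ (hr (i + 1)), one_mul]
          exact hr2 i
        have h4 : 1 ≤ (1 + η) * (‖fd f (b i)‖ * r i / r (i + 1)) := by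
          nlinarith
        have := hr i
        exact add_nonneg (mul_nonneg (by positivity) (Real.log_nonneg h4)) (by positivity)
    _ ≤ ENNReal.ofReal (2 * Real.pi * (∑ i, Real.log (‖fd f (b i)‖ * r i / r (i + 1))) + δ) := by
        apply ENNReal.ofReal_le_ofReal
        have h5 : ∀ i, Real.log ((1 + η) * (‖fd f (b i)‖ * r i / r (i + 1))) =
            Real.log (1 + η) + Real.log (‖fd f (b i)‖ * r i / r (i + 1)) := by
          intro i
          rw [Real.log_mul (by positivity)]
          have := hfd i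
          have := hr i
          have := hr (i + 1)
          positivity
        simp only [h5]
        rw [Finset.sum_add_distrib, ← Finset.mul_sum, ← Finset.mul_sum, Finset.sum_add_distrib,
          Finset.sum_const, Finset.card_univ, ZMod.card, nsmul_eq_mul, ← Finset.mul_sum]
        have h6 : Real.log (1 + η) ≤ η := by
          have := Real.log_le_sub_one_of_pos (show 0 < 1 + η by positivity)
          linarith
        have h7 : 2 * Real.pi * (k * Real.log (1 + η)) ≤ δ / 2 := by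
          calc 2 * Real.pi * (k * Real.log (1 + η)) ≤ 2 * Real.pi * (k * η) := by gcongr
            _ = δ / 2 := by
              rw [hη]
              field_simp
              ring
        have h8 : 2 * Real.pi * C * (s * ∑ i, r i) ≤ δ / 2 := by
          calc 2 * Real.pi * C * (s * ∑ i, r i) = s * D := by rw [hD]; ring
            _ ≤ δ / 2 := hs2
        linarith

end PPS
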