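import Pool.Agent.helper25.PP.Spec

set_option autoImplicit false

namespace PP

open Finset SimpleGraph CT

/-- `ein G A ≤ |A| (|A| - 1)` in the form `ein G A + |A| ≤ |A| * |A|`. -/
theorem DE_ein {V : Type} [Fintype V] [DecidableEq V] (G : SimpleGraph V) (A : Finset V) :
    ein G A ≤ A.card * A.card - A.card := by
  classical
  rw [← Finset.offDiag_card]
  apply Finset.card_le_card
  intro p hp
  rw [mem_ein] at hp
  rw [Finset.mem_offDiag]
  exact ⟨hp.1.1, hp.1.2, hp.2.ne⟩

theorem DE (hHS : HS_stmt) : DE_stmt := by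
  intro V _ _ G A hG hE1 hE2 h2 hA
  by_contra hd
  rw [not_le] at hd
  obtain ⟨-, hs, -⟩ := hHS V G A hG
  have hb := DE_ein G A
  have h300 : ¬ Fintype.card V ≤ 300 * A.card := by
    intro h
    exact hE2 ⟨A, h, hA, by omega⟩
  have h4 : ¬ 4 ≤ A.card := by
    intro h
    apply hE1
    exact ⟨A, h, by omega, by omega⟩
  have h23 : A.card = 2 ∨ A.card = 3 := by omega
  rcases h23 with h | h
  · rw [h] at hb hs
    omega
  · rw [h] at hb hs
    omega

end PP
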